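import Pool.Agent.U896.SC.PubC
import Pool.Agent.U896.SV.PubL

/-!
Nearly taming two-forms: the definitions used in the statement.
-/

set_option autoImplicit false

open Set Filter Topology MeasureTheory
open scoped Manifold ContDiff

noncomputable section

namespace Pool.Agent.U896.NTP

open Pool.Agent.Y501.SYP Pool.Agent.U896.SWP

variable {d : ℕ} {X : Type} [TopologicalSpace X] [ChartedSpace (ES d) X]

/-- the constant two-forms `η` with `η(v, A v) ≥ c |v|²` for all vectors `v` -/
def TameSet (c : ℝ) (A : ES d → ES d) : Set ((ES d) [⋀^Fin 2]→L[ℝ] ℝ) :=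
  {η | ∀ v : ES d, c * ‖v‖ ^ 2 ≤ η ![v, A v]}

/-- `σ` nearly tames `J` at `x`: in the chart at `x`, for some `c > 0`, on all balls `B(y, t)` with
`y` near `x` and `t` small the form is close in the mean to the set of the constant forms `η` with
`η(v, J(y) v) ≥ c |v|²` (the mean distance tends to zero, uniformly, as `t` tends to zero). -/
def NearlyTaming (σ : Form (ES d) X 2) (J : End (ES d) X) (x : X) : Prop :=
  ∃ c R : ℝ, 0 < c ∧ 0 < R ∧ ∀ δ : ℝ, 0 < δ → ∃ r : ℝ, 0 < r ∧
    ∀ y ∈ Metric.ball (chartAt (ES d) x x) R, ∀ t : ℝ, 0 < t → t ≤ r →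
      ∫⁻ q in Metric.ball y t, ENNReal.ofReal (Metric.infDist (pb (chartAt (ES d) x).symm σ q)
        (TameSet c (inChart J x y))) ∂(leb d) ≤ ENNReal.ofReal (δ * t ^ d)

end Pool.Agent.U896.NTP
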