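import Pool.Agent.U896.NT.N2
import Pool.Agent.U896.NT.PubNT
import Pool.Agent.U896.EQ.Q5
import Pool.Agent.U896.VT.FinalT
import Pool.Agent.Q130.SF.Hom

/-!
# Nearly taming forms: the main theorem, with the public definitions
-/

set_option autoImplicit false

open Set Filter Topology MeasureTheory
open scoped Manifold ContDiff

noncomputable section

namespace Pool.Agent.U896.NTP

open Pool.Agent.Y501
open Pool.Agent.Y501.SYP
open Pool.Agent.U896.SWP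
open Pool.Agent.U896.SVP
open Pool.Agent.U896.SCP
open Pool.Agent.U896.VMP
open Pool.Agent.U896.VTP

section

variable {d : ℕ} {X : Type} [TopologicalSpace X] [ChartedSpace (ES d) X]

attribute [local instance] cs mf

/-- the forms which are at least `τ₀` on complex lines -/
def above (τ₀ : Form (ES d) X 2) (J : End (ES d) X) : Set (Form (ES d) X 2) :=
  {τ | ∀ (x : X) (v : TangentSpace 𝓘(ℝ, ES d) x), τ₀ x ![v, J x v] ≤ τ x ![v, J x v]}

theorem norm_aux (T : SY.E d →L[ℝ] SY.E d) (v : SY.E d) {B : ℝ} (hB : 0 < B) (hT : ‖T‖ < B)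
    (hv : 0 < ‖v‖) : ‖(B * ‖v‖)⁻¹ • T v‖ ≤ 1 := by
  rw [norm_smul, norm_inv, Real.norm_of_nonneg (by positivity),
    inv_mul_le_iff₀ (by positivity), mul_one]
  exact (ContinuousLinearMap.le_opNorm _ _).trans (mul_le_mul_of_nonneg_right hT.le hv.le)

theorem with_of [IsManifold 𝓘(ℝ, ES d) ∞ X] {J : End (ES d) X} (hJ : IsAlmostComplex J)
    {τ₀ : Form (ES d) X 2} (hτ₀ : IsSmooth τ₀) (ht : ∀ x, TamesAt τ₀ J x)
    {σ : Form (ES d) X 2} {x : X} (h : NearlyTaming σ J x) :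
    NearlyNondegenerateWith (above τ₀ J) σ x := by
  obtain ⟨c, R, hc, hR, h1⟩ := h
  obtain ⟨m, hm, h2⟩ := EQ.unif_of_tames (d := d) (X := X) ((smooth_iff _).1 hτ₀) (ac_of J hJ) x
    (ht x)
  obtain ⟨p₀, hp₀⟩ : ∃ p₀, p₀ = chartAt (SY.E d) x x := ⟨_, rfl⟩
  have hpt : p₀ ∈ (chartAt (SY.E d) x).target := by rw [hp₀]; exact mem_chart_target (SY.E d) x
  obtain ⟨T, hTd⟩ : ∃ T : SY.E d → SY.E d →L[ℝ] SY.E d,
      T = SY.inChart (d := d) (X := X) J x := ⟨_, rfl⟩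
  have hTc : ContinuousAt T p₀ := by
    rw [hTd]
    exact ((ac_of J hJ).2 x).continuousAt ((chartAt (SY.E d) x).open_target.mem_nhds hpt)
  obtain ⟨B, hB⟩ : ∃ B, B = ‖T p₀‖ + 1 := ⟨_, rfl⟩
  have hB0 : 0 < B := by rw [hB]; positivity
  have h3 : ∀ᶠ p in 𝓝 p₀, ‖T p‖ < B :=
    hTc.norm.eventually (gt_mem_nhds (by rw [hB]; linarith))
  have h4 : ∀ᶠ p in 𝓝 p₀, p ∈ (chartAt (SY.E d) x).target :=
    (chartAt (SY.E d) x).open_target.mem_nhds hpt
  rw [← hp₀] at h2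
  obtain ⟨R', hR', h5⟩ := Metric.eventually_nhds_iff_ball.1 (h2.and (h3.and h4))
  obtain ⟨c', hc'⟩ : ∃ c', c' = min c m := ⟨_, rfl⟩
  have hc'0 : 0 < c' := by rw [hc']; exact lt_min hc hm
  have hc'c : c' ≤ c := by rw [hc']; exact min_le_left _ _
  have hc'm : c' ≤ m := by rw [hc']; exact min_le_right _ _
  refine ⟨c' / B, min R R', by positivity, lt_min hR hR', fun δ hδ => ?_⟩
  obtain ⟨r, hr, h6⟩ := h1 δ hδ
  refine ⟨r, hr, fun y hy t ht0 htr => ?_⟩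
  have hy1 : y ∈ Metric.ball (chartAt (ES d) x x) R :=
    Metric.ball_subset_ball (min_le_left _ _) hy
  have hy2 : y ∈ Metric.ball p₀ R' := by
    rw [hp₀]
    exact Metric.ball_subset_ball (min_le_right _ _) hy
  obtain ⟨g1, g2, g3⟩ := h5 y hy2
  have hTy : ∀ v : ES d, inChart J x y v = T y v := fun v => by rw [hTd]; rfl
  have g1' : ∀ v : SY.E d, m * ‖v‖ ^ 2 ≤
      SY.pb (d := d) (X := X) (chartAt (SY.E d) x).symm τ₀ y ![v, T y v] := fun v => by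
    rw [hTd]
    exact g1 v
  have habove : ∀ τ ∈ above τ₀ J, ∀ v : SY.E d,
      SY.pb (d := d) (X := X) (chartAt (SY.E d) x).symm τ₀ y ![v, T y v] ≤
        SY.pb (d := d) (X := X) (chartAt (SY.E d) x).symm τ y ![v, T y v] := by
    intro τ hτ v
    have e1 := Y455.SY.Q_eq (d := d) (X := X) τ₀ J x g3 v
    have e2 := Y455.SY.Q_eq (d := d) (X := X) τ J x g3 v
    have e3 : SY.pb (d := d) (X := X) (chartAt (SY.E d) x).symm τ₀ y ![v, T y v] =
        Y455.SY.Q (d := d) (X := X) τ₀ J x y v := by rw [hTd]; rfl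
    have e4 : SY.pb (d := d) (X := X) (chartAt (SY.E d) x).symm τ y ![v, T y v] =
        Y455.SY.Q (d := d) (X := X) τ J x y v := by rw [hTd]; rfl
    rw [e3, e4, e1, e2]
    exact hτ _ _
  have hsub : TameSet c (inChart J x y) ⊆ TameSet c' (inChart J x y) := by
    intro ζ hζ v
    exact (mul_le_mul_of_nonneg_right hc'c (by positivity)).trans (hζ v)
  have hne : (TameSet c (inChart J x y)).Nonempty := by
    refine ⟨(c / m) • SY.pb (d := d) (X := X) (chartAt (SY.E d) x).symm τ₀ y, fun v => ?_⟩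
    rw [hTy]
    have e5 : ((c / m) • SY.pb (d := d) (X := X) (chartAt (SY.E d) x).symm τ₀ y) ![v, T y v] =
        (c / m) * SY.pb (d := d) (X := X) (chartAt (SY.E d) x).symm τ₀ y ![v, T y v] := rfl
    refine le_of_le_of_eq ?_ e5.symm
    have e6 := mul_le_mul_of_nonneg_left (g1' v) (show (0 : ℝ) ≤ c / m by positivity)
    have e7 : c / m * (m * ‖v‖ ^ 2) = c * ‖v‖ ^ 2 := by
      field_simp
    exact e7.symm.le.trans e6
  refine ⟨TameSet c' (inChart J x y), ?_, hne.mono hsub, fun ζ hζ v => ?_, fun τ hτ v => ?_, ?_⟩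
  · intro ζ hζ ζ' hζ' a b ha hb hab v
    have e1 : (a • ζ + b • ζ') ![v, inChart J x y v] =
        a * ζ ![v, inChart J x y v] + b * ζ' ![v, inChart J x y v] := rfl
    rw [e1]
    have e2 := mul_le_mul_of_nonneg_left (hζ v) ha
    have e3 := mul_le_mul_of_nonneg_left (hζ' v) hb
    have e4 : c' * ‖v‖ ^ 2 = a * (c' * ‖v‖ ^ 2) + b * (c' * ‖v‖ ^ 2) := by
      rw [← add_mul, hab, one_mul]
    linarith
  · by_cases hv : v = 0
    · refine ⟨0, by simp, ?_⟩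
      have e1 : ζ ![v, 0] = 0 :=
        ContinuousMultilinearMap.map_coord_zero ζ.toContinuousMultilinearMap 1 rfl
      rw [e1, hv, norm_zero, mul_zero]
    · have hnv : 0 < ‖v‖ := norm_pos_iff.2 hv
      refine ⟨(B * ‖v‖)⁻¹ • T y v, ?_, ?_⟩
      · exact norm_aux (T y) v hB0 g2 hnv
      · have e1 : ζ ![v, (B * ‖v‖)⁻¹ • T y v] = (B * ‖v‖)⁻¹ * ζ ![v, T y v] :=
          NT.alt2_smul' (d := d) ζ _ v (T y v)
        rw [e1]
        have e2 := hζ v
        rw [hTy] at e2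
        have e3 := mul_le_mul_of_nonneg_left e2 (show (0 : ℝ) ≤ (B * ‖v‖)⁻¹ by positivity)
        refine le_trans (le_of_eq ?_) e3
        field_simp
  · rw [hTy]
    exact ((mul_le_mul_of_nonneg_right hc'm (by positivity)).trans (g1' v)).trans (habove τ hτ v)
  · refine le_trans (lintegral_mono fun q => ?_) (h6 y hy1 t ht0 htr)
    exact ENNReal.ofReal_le_ofReal (Metric.infDist_le_infDist_of_subset hsub hne)

theorem nearlyTaming [IsManifold 𝓘(ℝ, ES d) ∞ X] [CompactSpace X] [T2Space X] (hd : 0 < d)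
    {a : ℝ} (ha : 0 ≤ a) (ha1 : a < 1) (J : End (ES d) X) (hJ : IsAlmostComplex J)
    (σ₀ : Form (ES d) X 2) (hσ₀ : IsSmooth σ₀) (hσ₀c : IsClosedForm σ₀)
    (β : Form (ES d) X 1) (σ : Form (ES d) X 2) (hi1 : LocInt1 β) (hi : LocInt σ)
    (hw : WeaklyPlusD σ σ₀ β) (hM : MorreyGrowth a σ) (hn : ∀ x, NearlyTaming σ J x) :
    ∃ (α : Form (ES d) X 1) (ρ : Form (ES d) X 2), IsSmooth α ∧ IsSmooth ρ ∧ IsD α ρ ∧
      IsTamingSymplectic (addF σ₀ ρ) J ∧ ∀ τ : Form (ES d) X 2, (∀ x, TamesAt τ J x) →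
        ∀ t : ℝ, 0 ≤ t → t ≤ 1 → NondegForm (segment τ (addF σ₀ ρ) t) := by
  have had : a ≤ d := by
    have : (1 : ℝ) ≤ d := by exact_mod_cast hd
    linarith
  obtain ⟨τ₀, t1, t2⟩ := Pool.Agent.Q130.SF.exists_tame (d := d) (X := X)
    Pool.Agent.Y484.SY.t_GEN Pool.Agent.Y455.SY.t_PERT Pool.Agent.Y363.SY.t_LOCAL (J := J)
    (ac_of J hJ)
  have hn' : ∀ x, NearlyNondegenerateWith (above (X := X) τ₀ J) σ x := fun x =>
    with_of hJ ((smooth_iff τ₀).2 t1) t2 (hn x)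
  obtain ⟨α, ρ, h1, h2, h3, h4, h5⟩ := VT.mainCT (d := d) (X := X) ha ha1 had
    Pool.Agent.Y394.SY.t_SM Pool.Agent.Y689.SY.t_HH
    Pool.Agent.Y949.SY.t_PATCH2 Pool.Agent.Y891.SY.t_PATCHP (𝒯 := above (X := X) τ₀ J)
    (K := univ) isClosed_univ
    (σ₀ := σ₀) ((smooth_iff σ₀).1 hσ₀) ((closed_iff σ₀).1 hσ₀c) (β := β) (σ := σ)
    ⟨fun V φ hV hφ hp p hpV => absurd (mem_univ _) (hp p hpV),
    fun V φ hV hφ hp p hpV => absurd (mem_univ _) (hp p hpV),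
    fun V φ hV hφ hp p hpV => absurd (mem_univ _) (hp p hpV),
    lp_of hσ₀ hi hi1 hw, mor_of hM, vt_of ha1 had hσ₀ hσ₀c hi hi1 hw hM hn'⟩
  have h6 : ∀ x, TamesAt (addF σ₀ ρ) J x := by
    intro z
    obtain ⟨c, hc, -, h7⟩ := h5 z
    exact NT.tames_of_seg (d := d) (X := X) (w := addF σ₀ ρ) (τ₀ := τ₀) hJ.sq (z := z) hc
      fun τ hτ θ h0 h1 => h7 τ hτ θ h0 h1
  have h7 : IsTamingSymplectic (addF σ₀ ρ) J :=
    symp_of ((smooth_iff _).2 (((smooth_iff σ₀).1 hσ₀).add h2)) ((closed_iff _).2 h4) h6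
  exact ⟨α, ρ, (smooth_iff α).2 h1, (smooth_iff ρ).2 h2, (isD_iff α ρ).2 h3, h7,
    fun τ hτ t ht0 ht1 => segment_nondeg hτ h7.tames t ht0 ht1⟩

end

end Pool.Agent.U896.NTP
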