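import Pool.Agent.Q130.SF.Acs
import Pool.Agent.U896.VM.V1

/-!
# Nearly taming forms: linear algebra
-/

set_option autoImplicit false

open Set Filter Topology MeasureTheory
open scoped Manifold ContDiff RealInnerProductSpace

noncomputable section

namespace Pool.Agent.U896.NT

open Pool.Agent.Y501.SY (E wedge wedge_apply)
open Pool.Agent.U896.VM (NDg)
open Pool.Agent.Q130.SF (alt2_add alt2_smul alt2_swap)

variable {d : ℕ}

theorem alt2_add' (σ : (E d) [⋀^Fin 2]→L[ℝ] ℝ) (v u u' : E d) :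
    σ ![v, u + u'] = σ ![v, u] + σ ![v, u'] := by
  rw [alt2_swap, alt2_add, neg_add, ← alt2_swap, ← alt2_swap]

theorem alt2_smul' (σ : (E d) [⋀^Fin 2]→L[ℝ] ℝ) (c : ℝ) (v u : E d) :
    σ ![v, c • u] = c * σ ![v, u] := by
  rw [alt2_swap, alt2_smul, alt2_swap σ u v]
  ring

theorem wedge2 (a b : E d →L[ℝ] ℝ) (v u : E d) :
    wedge (V := E d) a b ![v, u] = a v * b u - a u * b v := wedge_apply (V := E d) _ _ _

/-- if all the segments from `w` to the forms which are at least `τ₀` on complex lines are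
nondegenerate, uniformly, then `w` tames `J` -/
theorem tame_of_seg {w τ₀ : (E d) [⋀^Fin 2]→L[ℝ] ℝ} {J : E d →L[ℝ] E d} (hJ : ∀ v, J (J v) = -v)
    {c : ℝ} (hc : 0 < c)
    (hT : ∀ κ : (E d) [⋀^Fin 2]→L[ℝ] ℝ, (∀ u, τ₀ ![u, J u] ≤ κ ![u, J u]) → ∀ θ : ℝ, 0 ≤ θ →
      θ ≤ 1 → NDg c ((1 - θ) • κ + θ • w)) (v : E d) (hv : v ≠ 0) : 0 < w ![v, J v] := by
  by_contra hcon
  rw [not_lt] at hcon
  have hnv : 0 < ‖v‖ := norm_pos_iff.2 hv
  -- the functional `w(v, ·)`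
  obtain ⟨l, hl⟩ : ∃ l : E d →L[ℝ] ℝ, ∀ u, l u = -w ![v, u] :=
    ⟨LinearMap.toContinuousLinearMap
      { toFun := fun u => -w ![v, u]
        map_add' := fun u u' => by rw [alt2_add']; ring
        map_smul' := fun c u => by rw [alt2_smul', RingHom.id_apply, smul_eq_mul]; ring },
      fun _ => rfl⟩
  have hlv : l v = 0 := by
    have h1 := alt2_swap w v v
    rw [hl]
    linarith
  -- a functional which is one on `v` and zero on `Jv`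
  obtain ⟨m, hm⟩ : ∃ m, m = ⟪v, v⟫ + ⟪J v, J v⟫ := ⟨_, rfl⟩
  have hm0 : 0 < m := by
    have h1 : 0 < ⟪v, v⟫ := real_inner_self_pos.2 hv
    have h2 : 0 ≤ ⟪J v, J v⟫ := real_inner_self_nonneg
    rw [hm]
    linarith
  obtain ⟨α, hα⟩ : ∃ α : E d →L[ℝ] ℝ, ∀ u, α u = m⁻¹ * (⟪v, u⟫ + ⟪J v, J u⟫) :=
    ⟨m⁻¹ • (innerSL ℝ v + (innerSL ℝ (J v)).comp J), fun _ => rfl⟩
  have hαv : α v = 1 := by
    rw [hα, ← hm, inv_mul_cancel₀ hm0.ne']
  have hαJ : α (J v) = 0 := by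
    rw [hα, hJ, inner_neg_right, real_inner_comm]
    ring
  obtain ⟨b, hb⟩ : ∃ b, b = l (J v) := ⟨_, rfl⟩
  have hb0 : 0 ≤ b := by
    rw [hb, hl]
    linarith
  obtain ⟨β, hβ⟩ : ∃ β : E d →L[ℝ] ℝ, ∀ u, β u = -α (J u) := ⟨-(α.comp J), fun _ => rfl⟩
  obtain ⟨l₀, hl₀⟩ : ∃ l₀ : E d →L[ℝ] ℝ, ∀ u, l₀ u = l u - b * β u := ⟨l - b • β, fun _ => rfl⟩
  have hβv : β v = 0 := by rw [hβ, hαJ, neg_zero]
  have hβJ : β (J v) = 1 := by rw [hβ, hJ, map_neg, hαv, neg_neg]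
  have hl₀v : l₀ v = 0 := by rw [hl₀, hlv, hβv]; ring
  have hl₀J : l₀ (J v) = 0 := by rw [hl₀, hβJ, ← hb]; ring
  obtain ⟨κ, hκ⟩ : ∃ κ : (E d) [⋀^Fin 2]→L[ℝ] ℝ, ∀ u u', κ ![u, u'] =
      b * (α u * β u' - α u' * β u) + (α u * l₀ u' - α u' * l₀ u) -
        (α (J u) * l₀ (J u') - α (J u') * l₀ (J u)) := by
    refine ⟨b • wedge (V := E d) α β + wedge (V := E d) α l₀ -
      wedge (V := E d) (α.comp J) (l₀.comp J), fun u u' => ?_⟩
    have h1 : (b • wedge (V := E d) α β + wedge (V := E d) α l₀ -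
        wedge (V := E d) (α.comp J) (l₀.comp J)) ![u, u'] =
        b * wedge (V := E d) α β ![u, u'] + wedge (V := E d) α l₀ ![u, u'] -
        wedge (V := E d) (α.comp J) (l₀.comp J) ![u, u'] := rfl
    rw [h1, wedge2, wedge2, wedge2]
    rfl
  have hκv : ∀ u, κ ![v, u] = -w ![v, u] := by
    intro u
    rw [hκ, hαv, hβv, hl₀v, hαJ, hl₀J, hl₀, hl]
    ring
  have hκJ : ∀ u, 0 ≤ κ ![u, J u] := by
    intro u
    rw [hκ, hJ, map_neg, map_neg, hβ (J u), hJ, map_neg, hβ u]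
    have h1 : b * (α u * - -α u - α (J u) * -α (J u)) + (α u * l₀ (J u) - α (J u) * l₀ u) -
        (α (J u) * -l₀ u - -α u * l₀ (J u)) = b * (α u ^ 2 + α (J u) ^ 2) := by ring
    rw [h1]
    positivity
  -- the contradiction
  obtain ⟨L, hL⟩ : ∃ L, L = ‖τ₀‖ / c := ⟨_, rfl⟩
  have hL0 : 0 ≤ L := by rw [hL]; positivity
  have h1 := hT (τ₀ + L • κ) (fun u => by
    have h2 : (τ₀ + L • κ) ![u, J u] = τ₀ ![u, J u] + L * κ ![u, J u] := rfl
    rw [h2]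
    have := mul_nonneg hL0 (hκJ u)
    linarith) (L / (1 + L)) (by positivity) (by
    rw [div_le_one (by linarith)]
    linarith)
  obtain ⟨u, hu, h2⟩ := h1 v
  have h3 : ((1 - L / (1 + L)) • (τ₀ + L • κ) + (L / (1 + L)) • w) ![v, u] =
      (1 - L / (1 + L)) * (τ₀ ![v, u] + L * κ ![v, u]) + (L / (1 + L)) * w ![v, u] := rfl
  have h1L : (1 : ℝ) + L ≠ 0 := by linarith
  have h4 : (1 - L / (1 + L)) * (τ₀ ![v, u] + L * κ ![v, u]) + (L / (1 + L)) * w ![v, u] =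
      τ₀ ![v, u] / (1 + L) := by
    rw [hκv]
    field_simp
    ring
  rw [h3, h4, le_div_iff₀ (by linarith)] at h2
  have h5 : τ₀ ![v, u] ≤ ‖τ₀‖ * ‖v‖ := by
    have h6 := τ₀.le_opNorm ![v, u]
    rw [Fin.prod_univ_two] at h6
    have h7 : ‖τ₀‖ * (‖(![v, u] : Fin 2 → E d) 0‖ * ‖(![v, u] : Fin 2 → E d) 1‖) ≤ ‖τ₀‖ * ‖v‖ := by
      refine mul_le_mul_of_nonneg_left ?_ (norm_nonneg _)
      show ‖v‖ * ‖u‖ ≤ ‖v‖
      exact mul_le_of_le_one_right (norm_nonneg _) hu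
    exact (le_abs_self _).trans (h6.trans h7)
  have h8 : c * ‖v‖ * (1 + L) = (c + ‖τ₀‖) * ‖v‖ := by
    rw [hL]
    field_simp
  rw [h8] at h2
  nlinarith [mul_pos hc hnv]

end Pool.Agent.U896.NT
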