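import Pool.Agent.U896.NT.N1

/-!
# Nearly taming forms: from segments to taming forms
-/

set_option autoImplicit false

open Set Filter Topology MeasureTheory
open scoped Manifold ContDiff

noncomputable section

namespace Pool.Agent.U896.NT

open Pool.Agent.Y501.SY Pool.Agent.Y455.SY
open Pool.Agent.U896.VM (NDg)
open Pool.Agent.Q130.SF (pb_apply2)

variable {d : ℕ} {X : Type} [TopologicalSpace X] [ChartedSpace (E d) X] [IsManifold (𝓡 d) ∞ X]

theorem inChart_sq {J : End d X} (hJ : ∀ (x : X) (v : TangentSpace (𝓡 d) x), J x (J x v) = -v)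
    (z : X) {p : E d} (hp : p ∈ (chartAt (E d) z).target) (v : E d) :
    inChart J z p (inChart J z p v) = -v := by
  have h1 : ∀ u : E d, A z p (inChart J z p u) = J ((chartAt (E d) z).symm p) (A z p u) :=
    fun u => AB z hp _
  have h2 : inChart J z p (inChart J z p v) =
      B z p (J ((chartAt (E d) z).symm p) (A z p (inChart J z p v))) := rfl
  have h3 : B z p (J ((chartAt (E d) z).symm p) (J ((chartAt (E d) z).symm p) (A z p v))) =
      B z p (-(A z p v)) := congrArg (B z p) (hJ _ _)
  have h4 : B z p (J ((chartAt (E d) z).symm p) (A z p (inChart J z p v))) =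
      B z p (J ((chartAt (E d) z).symm p) (J ((chartAt (E d) z).symm p) (A z p v))) :=
    congrArg (fun u => B z p (J ((chartAt (E d) z).symm p) u)) (h1 v)
  rw [h2, h4, h3, map_neg]
  exact congrArg Neg.neg (BA z hp v)

theorem tames_of_seg {w τ₀ : Form d X 2} {J : End d X}
    (hJ : ∀ (x : X) (v : TangentSpace (𝓡 d) x), J x (J x v) = -v) {z : X} {c : ℝ} (hc : 0 < c)
    (h : ∀ τ : Form d X 2, (∀ (x : X) (v : TangentSpace (𝓡 d) x),
      τ₀ x ![v, J x v] ≤ τ x ![v, J x v]) → ∀ θ : ℝ, 0 ≤ θ → θ ≤ 1 →
        NDg c (pb (chartAt (E d) z).symm ((1 - θ) • τ + θ • w) (chartAt (E d) z z))) :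
    TamesAt w J z := by
  classical
  obtain ⟨p, hp⟩ : ∃ p, p = chartAt (E d) z z := ⟨_, rfl⟩
  have hpt : p ∈ (chartAt (E d) z).target := by rw [hp]; exact mem_chart_target (E d) z
  have hpz : (chartAt (E d) z).symm p = z := by
    rw [hp]
    exact (chartAt (E d) z).left_inv (mem_chart_source (E d) z)
  rw [← hp] at h
  have key : ∀ v : E d, v ≠ 0 → 0 < Q w J z p v := by
    intro v hv
    refine tame_of_seg (τ₀ := pb (chartAt (E d) z).symm τ₀ p) (J := inChart J z p)
      (inChart_sq hJ z hpt) hc (fun κ hκ θ h0 h1 => ?_) v hv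
    -- a form with the value `κ`
    obtain ⟨κ', hκ'⟩ : ∃ κ' : (E d) [⋀^Fin 2]→L[ℝ] ℝ,
        κ' = κ.compContinuousLinearMap (B z p) := ⟨_, rfl⟩
    have hκ2 : ∀ a b : E d, κ' ![a, b] = κ ![B z p a, B z p b] := by
      intro a b
      rw [hκ']
      have h3 : (fun i : Fin 2 => B z p ((![a, b] : Fin 2 → E d) i)) = ![B z p a, B z p b] := by
        funext i
        fin_cases i <;> rfl
      exact congrArg (fun m => κ m) h3
    obtain ⟨τ, hτz, hτ⟩ : ∃ τ : Form d X 2, (τ z = κ') ∧ ∀ y, y ≠ z → τ y = τ₀ y :=
      ⟨fun y => if y = z then κ' else τ₀ y, if_pos rfl, fun y hy => if_neg hy⟩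
    have h2 := h τ (fun x v => ?_) θ h0 h1
    · have h3 : pb (chartAt (E d) z).symm τ p = κ := by
        refine ContinuousAlternatingMap.ext fun m => ?_
        have h4 : m = ![m 0, m 1] := by
          funext i
          fin_cases i <;> rfl
        rw [h4, pb_apply2]
        have h5 : τ ((chartAt (E d) z).symm p) ![A z p (m 0), A z p (m 1)] =
            κ' ![A z p (m 0), A z p (m 1)] := by
          have h6 : ∀ y : X, y = z → ∀ a b : E d, τ y ![a, b] = κ' ![a, b] := by
            intro y hy a b
            have h7 : τ y = κ' := by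
              rw [hy]
              exact hτz
            exact congrArg (fun T : (E d) [⋀^Fin 2]→L[ℝ] ℝ => T ![a, b]) h7
          exact h6 _ hpz _ _
        refine Eq.trans h5 ?_
        rw [hκ2, BA z hpt, BA z hpt]
      have h4 : pb (chartAt (E d) z).symm ((1 - θ) • τ + θ • w) p =
          (1 - θ) • κ + θ • pb (chartAt (E d) z).symm w p := by
        rw [← h3]
        rfl
      rw [h4] at h2
      exact h2
    · by_cases hx : x = z
      · subst hx
        obtain ⟨Jx, hJx⟩ : ∃ Jx : E d →L[ℝ] E d, Jx = J x := ⟨J x, rfl⟩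
        obtain ⟨τx, hτx⟩ : ∃ τx : (E d) [⋀^Fin 2]→L[ℝ] ℝ, τx = τ₀ x := ⟨τ₀ x, rfl⟩
        have key2 : ∀ a : E d, τx ![a, Jx a] ≤ κ' ![a, Jx a] := by
          intro a
          have h3 := hκ (B x p a)
          have h4 : inChart J x p (B x p a) = B x p (Jx a) := by
            have h5 : inChart J x p (B x p a) =
                B x p (J ((chartAt (E d) x).symm p) (A x p (B x p a))) := rfl
            have h6 : ∀ y : X, y = x → ∀ b : E d, B x p (J y b) = B x p (Jx b) := by
              rintro y rfl b
              rw [hJx]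
              rfl
            rw [h5]
            refine (h6 _ hpz _).trans ?_
            rw [AB x hpt]
          rw [h4, ← hκ2] at h3
          have h7 : pb (chartAt (E d) x).symm τ₀ p ![B x p a, B x p (Jx a)] =
              τx ![a, Jx a] := by
            have h9 : ∀ y : X, y = x → ∀ a b : E d, τ₀ y ![a, b] = τx ![a, b] := by
              rintro y rfl a b
              rw [hτx]
              rfl
            refine (pb_apply2 _ _ _ _ _).trans ?_
            refine (h9 _ hpz _ _).trans ?_
            have h10 : ∀ b : E d, mfderiv (𝓡 d) (𝓡 d) (chartAt (E d) x).symm p (B x p b) = b :=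
              fun b => AB x hpt b
            have h11 : (![mfderiv (𝓡 d) (𝓡 d) (chartAt (E d) x).symm p (B x p a),
                mfderiv (𝓡 d) (𝓡 d) (chartAt (E d) x).symm p (B x p (Jx a))] : Fin 2 → E d) =
                ![a, Jx a] := by
              funext i
              fin_cases i
              · exact h10 a
              · exact h10 (Jx a)
            exact congrArg (fun m => τx m) h11
          rw [h7] at h3
          exact h3
        rw [hτz]
        rw [hJx, hτx] at key2
        exact key2 v
      · rw [hτ x hx]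
  rw [← hpz]
  exact (tames_iff w J z hpt).2 key

end Pool.Agent.U896.NT
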